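import Pool.Agent.W475.BG.Stm

set_option autoImplicit false

/-!
# Crude count of the zeros in one window (S_CRU), degree `d`
-/

namespace Pool.Agent.W273.BG

open Complex MeasureTheory Filter Topology Pool.Agent.W475.BG
open Pool.Agent.W475.BH (nz Vh)

namespace CRUpriv

lemma Vh_nonneg {κ : ℝ} (hκ : 0 < κ) (X : ℝ) : 0 ≤ Vh κ X := by
  unfold Vh
  split_ifs with h
  · positivity
  · push Not at h
    linarith

lemma Vh_le {κ : ℝ} (hκ : 0 < κ) (X : ℝ) : Vh κ X ≤ |X| / 2 := by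
  unfold Vh
  split_ifs with h
  · rw [div_le_div_iff₀ (by positivity) two_pos, ← sq_abs]
    have h0 : 0 ≤ |X| := abs_nonneg X
    nlinarith
  · linarith

end CRUpriv

open CRUpriv in
theorem cru (D : Dat) (hD : Ok D) (hY : S_SYM D) (hS : S_STIR D) (hU : S_UPP D) (hW : S_LOWD D)
    (hB : Pool.Agent.W475.BH.S_CB) : S_CRU D := by
  intro κ hκ
  have hd1 : (1 : ℝ) ≤ (D.d : ℝ) := by exact_mod_cast hD.hd
  have hd0 : (0 : ℝ) < (D.d : ℝ) := by linarith
  set k : ℝ := (D.d : ℝ) * κ with hkdef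
  have hk : 0 < k := mul_pos hd0 hκ
  obtain ⟨_, T3, -, -, hst⟩ := hS
  obtain ⟨C1, T1, hC1, hT1, hupp⟩ := hU κ hκ (5 * k + 14) (by linarith)
  obtain ⟨C2, T2, hC2, hT2, hlow⟩ := hW κ hκ 1 one_pos (5 * k + 14) (by linarith)
  have hlog2 : 0 < Real.log 2 := Real.log_pos one_lt_two
  refine ⟨((D.d : ℝ) * (2 * (5 * k + 14)) + 2 * (C1 + C2)) / Real.log 2,
    max (max T1 T2) (max T3 (Real.exp (k + 1))), by positivity, ?_, ?_⟩
  · exact hT1.trans ((le_max_left _ _).trans (le_max_left _ _))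
  intro T t0 hT hTt htT S hS'
  have hT1' : T1 ≤ T := ((le_max_left _ _).trans (le_max_left _ _)).trans hT
  have hT2' : T2 ≤ T := ((le_max_right _ _).trans (le_max_left _ _)).trans hT
  have hT3' : T3 ≤ T := ((le_max_left _ _).trans (le_max_right _ _)).trans hT
  have hT4' : Real.exp (k + 1) ≤ T := ((le_max_right _ _).trans (le_max_right _ _)).trans hT
  have hTpos : 0 < T := by linarith
  have ht0pos : 0 < t0 := by linarith
  set l : ℝ := Real.log T with hl
  set L : ℝ := Real.log t0 with hL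
  have hlκ : k + 1 ≤ l := by
    rw [hl, Real.le_log_iff_exp_le hTpos]
    exact hT4'
  have hlL : l ≤ L := Real.log_le_log hTpos hTt
  have hLl : L ≤ l + 1 := by
    have h5 : L ≤ Real.log (2 * T) := Real.log_le_log ht0pos htT
    rw [Real.log_mul two_ne_zero hTpos.ne'] at h5
    have h6 : Real.log 2 ≤ 1 := by
      have := Real.log_two_lt_d9
      linarith
    linarith
  have hlpos : 0 < l := by linarith
  have hLpos : 0 < L := by linarith
  have hHH : 0 < ‖HH D (I * t0)‖ := norm_pos_iff.2 (hst t0 (hT3'.trans hTt)).1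
  -- the centre
  set u0 : ℂ := (((k + 2) * l : ℝ) : ℂ) with hu0
  have hu0re : u0.re = (k + 2) * l := Complex.ofReal_re _
  have hu0n : ‖u0‖ = (k + 2) * l := by
    rw [hu0, Complex.norm_real, Real.norm_of_nonneg (by positivity)]
  have hfc := hlow t0 (hT2'.trans hTt) u0 (by
    rw [hu0n]
    have h5 : (k + 2) * l ≤ (k + 2) * L := mul_le_mul_of_nonneg_left hlL (by linarith)
    nlinarith) (by
    rw [hu0re, abs_of_pos (by positivity)]
    have h5 : (k + 1) * L ≤ (k + 1) * (l + 1) := mul_le_mul_of_nonneg_left hLl (by linarith)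
    nlinarith)
  have hfc' : ‖HH D (I * t0)‖ * Real.exp (-(C2 * L)) ≤ ‖XK D κ (I * t0 + u0)‖ := by
    refine le_trans ?_ hfc
    refine mul_le_mul_of_nonneg_left (Real.exp_le_exp.2 ?_) hHH.le
    have h5 : 0 ≤ L ^ 2 * Vd D.d κ (u0.re / L) :=
      mul_nonneg (sq_nonneg _) (mul_nonneg hd0.le (Vh_nonneg hk _))
    linarith
  have hfcpos : 0 < ‖XK D κ (I * t0 + u0)‖ := lt_of_lt_of_le (by positivity) hfc'
  set A : ℝ := (D.d : ℝ) * ((5 * k + 14) / 2) * L ^ 2 + (C1 + C2) * L with hA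
  have hcb := hB (XK D κ) (I * t0 + u0) ((2 * k + 6) * l) A S (hY κ hκ).1 (by positivity) (by
    intro z hz
    set u : ℂ := z - I * t0 with hu
    have hzu : z = I * t0 + u := by rw [hu]; ring
    have hun : ‖u‖ ≤ (5 * k + 14) * l := by
      have h5 : u = (z - (I * t0 + u0)) + u0 := by rw [hu]; ring
      rw [h5]
      refine (norm_add_le _ _).trans ?_
      rw [hu0n]
      nlinarith
    have hun' : ‖u‖ ≤ (5 * k + 14) * L :=
      hun.trans (mul_le_mul_of_nonneg_left hlL (by linarith))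
    have h6 := hupp t0 (hT1'.trans hTt) u hun'
    have h7 : L ^ 2 * Vd D.d κ (u.re / L) ≤ (D.d : ℝ) * ((5 * k + 14) / 2) * L ^ 2 := by
      have h8 : |u.re / L| ≤ 5 * k + 14 := by
        rw [abs_div, abs_of_pos hLpos, div_le_iff₀ hLpos]
        exact (Complex.abs_re_le_norm u).trans hun'
      have h9 := Vh_le hk (u.re / L)
      have h10 : Vh k (u.re / L) ≤ (5 * k + 14) / 2 := by linarith
      have h11 : Vd D.d κ (u.re / L) ≤ (D.d : ℝ) * ((5 * k + 14) / 2) :=
        mul_le_mul_of_nonneg_left h10 hd0.le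
      have h12 := mul_le_mul_of_nonneg_left h11 (sq_nonneg L)
      linarith
    have h8 : ‖HH D (I * t0)‖ ≤ ‖XK D κ (I * t0 + u0)‖ * Real.exp (C2 * L) := by
      have h9 := mul_le_mul_of_nonneg_right hfc' (Real.exp_pos (C2 * L)).le
      rw [mul_assoc, ← Real.exp_add, neg_add_cancel, Real.exp_zero, mul_one] at h9
      exact h9
    rw [hzu]
    calc ‖XK D κ (I * t0 + u)‖ ≤ ‖HH D (I * t0)‖ *
          Real.exp (L ^ 2 * Vd D.d κ (u.re / L) + C1 * L) := h6
      _ ≤ (‖XK D κ (I * t0 + u0)‖ * Real.exp (C2 * L)) *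
          Real.exp ((D.d : ℝ) * ((5 * k + 14) / 2) * L ^ 2 + C1 * L) := by
          refine mul_le_mul h8 (Real.exp_le_exp.2 (by linarith)) (Real.exp_pos _).le
            (by positivity)
      _ = Real.exp A * ‖XK D κ (I * t0 + u0)‖ := by
          rw [mul_assoc, ← Real.exp_add, mul_comm, hA]
          congr 2
          ring) (norm_pos_iff.1 hfcpos) (by
    intro z hz
    obtain ⟨hz1, hz2, hz3⟩ := hS' z hz
    rw [Metric.mem_closedBall, Complex.dist_eq]
    refine (Complex.norm_le_abs_re_add_abs_im _).trans ?_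
    have e1 : (z - (I * t0 + u0)).re = z.re - (k + 2) * l := by
      simp [hu0]
    have e2 : (z - (I * t0 + u0)).im = z.im - t0 := by
      simp [hu0]
    rw [e1, e2]
    have h5 : |z.re - (k + 2) * l| ≤ |z.re| + (k + 2) * l := by
      refine (abs_sub _ _).trans ?_
      rw [abs_of_nonneg (show 0 ≤ (k + 2) * l by positivity)]
    have h6 : |z.im - t0| ≤ 2 * l := by
      rw [abs_of_nonneg (by linarith)]
      linarith
    nlinarith)
  refine hcb.trans ?_
  rw [div_mul_eq_mul_div]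
  refine div_le_div_of_nonneg_right ?_ hlog2.le
  have hL2 : L ≤ 2 * l := by linarith
  have h5 : L ^ 2 ≤ 4 * l ^ 2 := by nlinarith
  have h6 : L ≤ 2 * l ^ 2 := by nlinarith
  have h7 : (D.d : ℝ) * ((5 * k + 14) / 2) * L ^ 2 ≤ (D.d : ℝ) * ((5 * k + 14) / 2) * (4 * l ^ 2) :=
    mul_le_mul_of_nonneg_left h5 (by positivity)
  have h8 : (C1 + C2) * L ≤ (C1 + C2) * (2 * l ^ 2) :=
    mul_le_mul_of_nonneg_left h6 (by linarith)
  rw [hA]
  linarith

end Pool.Agent.W273.BG
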